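import Mathlib

set_option autoImplicit false

/-! The map `T(x) = |x| x` of the closed unit disk and pairs of points whose distance it keeps. -/

namespace Pool.Agent.L7h58.TR

open scoped RealInnerProductSpace

abbrev E := EuclideanSpace ℝ (Fin 2)

theorem fin_num {ρ : ℝ} (h1 : -(8 / 100) ≤ 2 - 5 * ρ ∧ 2 - 5 * ρ ≤ 8 / 100)
    (h2 : -(10 / 100) ≤ (1 - ρ) * (1 - 4 * ρ) ∧ (1 - ρ) * (1 - 4 * ρ) ≤ 10 / 100) : False := by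
  obtain ⟨a, b⟩ := h1
  nlinarith [h2.1]

/-- real numbers: a quadratic form with three small values -/
theorem reals {na nb g x y ρ κ δ : ℝ} (hna : 0 < na) (hnb : 0 < nb)
    (hδ : 0 ≤ δ) (hδκ : 100 * δ ≤ κ) (hκ : 0 < κ)
    (h1 : |(1 - ρ) * na - 3 * x ^ 2| ≤ δ * na) (h2 : |(1 - ρ) * nb - 3 * y ^ 2| ≤ δ * nb)
    (h3 : |(1 - ρ) * (na + nb - 2 * g) - 3 * (x - y) ^ 2| ≤ δ * (na + nb - 2 * g))
    (h4 : x ^ 2 * nb + y ^ 2 * na - 2 * x * y * g = ρ * (na * nb - g ^ 2))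
    (h5 : κ * na ^ 2 ≤ na * nb - g ^ 2) (h6 : κ * nb ^ 2 ≤ na * nb - g ^ 2) : False := by
  obtain ⟨M, hM0, ha, hb, hG⟩ : ∃ M : ℝ, 0 < M ∧ na ≤ M ∧ nb ≤ M ∧ κ * M ^ 2 ≤ na * nb - g ^ 2 := by
    rcases le_total na nb with h | h
    · exact ⟨nb, hnb, h, le_rfl, h6⟩
    · exact ⟨na, hna, le_rfl, h, h5⟩
  have hM2 : 0 < M ^ 2 := by positivity
  have hab : na * nb ≤ M ^ 2 := by
    rw [sq]; exact mul_le_mul ha hb hnb.le hM0.le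
  have hGM : na * nb - g ^ 2 ≤ M ^ 2 := by nlinarith [sq_nonneg g]
  have hκ1 : κ ≤ 1 := by
    by_contra h
    push Not at h
    nlinarith
  have hgM : |g| ≤ M := by
    apply abs_le_of_sq_le_sq _ hM0.le
    nlinarith
  have hD : na + nb - 2 * g ≤ 4 * M := by linarith [neg_abs_le g]
  set β := (1 - ρ) * g - 3 * x * y with hβ
  have e1 : 2 * β = ((1 - ρ) * na - 3 * x ^ 2) + ((1 - ρ) * nb - 3 * y ^ 2)
      - ((1 - ρ) * (na + nb - 2 * g) - 3 * (x - y) ^ 2) := by rw [hβ]; ring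
  have hβ1 : |2 * β| ≤ 6 * δ * M := by
    rw [e1]
    have k1 := abs_le.1 h1
    have k2 := abs_le.1 h2
    have k3 := abs_le.1 h3
    have k4 : δ * na ≤ δ * M := mul_le_mul_of_nonneg_left ha hδ
    have k5 : δ * nb ≤ δ * M := mul_le_mul_of_nonneg_left hb hδ
    have k6 : δ * (na + nb - 2 * g) ≤ δ * (4 * M) := mul_le_mul_of_nonneg_left hD hδ
    rw [abs_le]
    constructor <;> linarith [k1.1, k1.2, k2.1, k2.2, k3.1, k3.2]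
  set G := na * nb - g ^ 2 with hGd
  have tr : ((1 - ρ) * na - 3 * x ^ 2) * nb + ((1 - ρ) * nb - 3 * y ^ 2) * na - 2 * β * g
      = (2 - 5 * ρ) * G := by
    rw [hβ, hGd]
    linear_combination (-3 : ℝ) * h4
  have det : ((1 - ρ) * na - 3 * x ^ 2) * ((1 - ρ) * nb - 3 * y ^ 2) - β ^ 2
      = (1 - ρ) * (1 - 4 * ρ) * G := by
    rw [hβ, hGd]
    linear_combination (-3 * (1 - ρ) : ℝ) * h4
  have t1 : |(2 - 5 * ρ) * G| ≤ 8 * δ * M ^ 2 := by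
    rw [← tr]
    have k1 : |((1 - ρ) * na - 3 * x ^ 2) * nb| ≤ δ * M ^ 2 := by
      rw [abs_mul, abs_of_pos hnb]
      calc _ ≤ (δ * na) * nb := mul_le_mul_of_nonneg_right h1 hnb.le
        _ = δ * (na * nb) := by ring
        _ ≤ _ := mul_le_mul_of_nonneg_left hab hδ
    have k2 : |((1 - ρ) * nb - 3 * y ^ 2) * na| ≤ δ * M ^ 2 := by
      rw [abs_mul, abs_of_pos hna]
      calc _ ≤ (δ * nb) * na := mul_le_mul_of_nonneg_right h2 hna.le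
        _ = δ * (na * nb) := by ring
        _ ≤ _ := mul_le_mul_of_nonneg_left hab hδ
    have k3 : |2 * β * g| ≤ 6 * δ * M * M := by
      rw [abs_mul]
      exact mul_le_mul hβ1 hgM (abs_nonneg _) (by positivity)
    have k4 := abs_le.1 k1
    have k5 := abs_le.1 k2
    have k6 := abs_le.1 k3
    have k7 : 6 * δ * M * M = 6 * δ * M ^ 2 := by ring
    rw [abs_le]
    constructor <;> linarith [k4.1, k4.2, k5.1, k5.2, k6.1, k6.2]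
  have t2 : |(1 - ρ) * (1 - 4 * ρ) * G| ≤ 10 * δ ^ 2 * M ^ 2 := by
    rw [← det]
    have k1 : |((1 - ρ) * na - 3 * x ^ 2) * ((1 - ρ) * nb - 3 * y ^ 2)| ≤ δ ^ 2 * M ^ 2 := by
      rw [abs_mul]
      calc _ ≤ (δ * M) * (δ * M) := mul_le_mul (h1.trans (mul_le_mul_of_nonneg_left ha hδ))
            (h2.trans (mul_le_mul_of_nonneg_left hb hδ)) (abs_nonneg _) (by positivity)
        _ = _ := by ring
    have k2 : β ^ 2 ≤ 9 * δ ^ 2 * M ^ 2 := by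
      have k5 : (2 * β) ^ 2 ≤ (6 * δ * M) ^ 2 := sq_le_sq' (abs_le.1 hβ1).1 (abs_le.1 hβ1).2
      linarith [show (2 * β) ^ 2 = 4 * β ^ 2 by ring, show (6 * δ * M) ^ 2 = 36 * (δ ^ 2 * M ^ 2) by ring]
    have k3 := abs_le.1 k1
    have k4 := sq_nonneg β
    rw [abs_le]
    constructor <;> linarith [k3.1, k3.2]
  have hG0 : 0 < G := lt_of_lt_of_le (by positivity) hG
  have w1 : δ * M ^ 2 ≤ G / 100 := by
    have := mul_le_mul_of_nonneg_right hδκ hM2.le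
    linarith
  have w2 : δ ^ 2 * M ^ 2 ≤ G / 100 := by
    have k1 : δ ≤ 1 := by linarith
    have k2 : δ ^ 2 ≤ δ := by
      have := mul_le_mul_of_nonneg_left k1 hδ
      linarith [sq δ]
    have := mul_le_mul_of_nonneg_right k2 hM2.le
    linarith
  have u1 : |2 - 5 * ρ| ≤ 8 / 100 := by
    rw [abs_mul, abs_of_pos hG0] at t1
    exact le_of_mul_le_mul_right (by linarith) hG0
  have u2 : |(1 - ρ) * (1 - 4 * ρ)| ≤ 10 / 100 := by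
    rw [abs_mul ((1 - ρ) * (1 - 4 * ρ)), abs_of_pos hG0] at t2
    exact le_of_mul_le_mul_right (by linarith) hG0
  exact fin_num (abs_le.1 u1) (abs_le.1 u2)

theorem plane (P a b : E) : ⟪P, a⟫ ^ 2 * ‖b‖ ^ 2 + ⟪P, b⟫ ^ 2 * ‖a‖ ^ 2 - 2 * ⟪P, a⟫ * ⟪P, b⟫ * ⟪a, b⟫
    = ‖P‖ ^ 2 * (‖a‖ ^ 2 * ‖b‖ ^ 2 - ⟪a, b⟫ ^ 2) := by
  simp only [EuclideanSpace.real_norm_sq_eq, PiLp.inner_apply, Fin.sum_univ_two, RCLike.inner_apply,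
    conj_trivial]
  ring

/-- a pair of points whose distance is kept by `x ↦ |x| x` -/
theorem pair {p q : E} (h : ‖‖p‖ • p - ‖q‖ • q‖ = ‖p - q‖) :
    (1 - ‖p‖ * ‖q‖) * ‖p - q‖ ^ 2 = 3 / 4 * ⟪p + q, p - q⟫ ^ 2 + 1 / 4 * (‖p‖ - ‖q‖) ^ 4 := by
  have h1 : ‖‖p‖ • p - ‖q‖ • q‖ ^ 2 = ‖p - q‖ ^ 2 := by rw [h]
  have h2 : ‖‖p‖ • p - ‖q‖ • q‖ ^ 2 = ‖p‖ ^ 4 + ‖q‖ ^ 4 - 2 * (‖p‖ * ‖q‖) * ⟪p, q⟫ := by
    rw [norm_sub_sq_real, norm_smul, norm_smul, inner_smul_left, inner_smul_right]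
    simp only [norm_norm, conj_trivial]
    ring
  have h3 : ‖p - q‖ ^ 2 = ‖p‖ ^ 2 + ‖q‖ ^ 2 - 2 * ⟪p, q⟫ := by
    rw [norm_sub_sq_real]; ring
  have h4 : ⟪p + q, p - q⟫ = ‖p‖ ^ 2 - ‖q‖ ^ 2 := by
    rw [inner_add_left, inner_sub_right, inner_sub_right, real_inner_self_eq_norm_sq,
      real_inner_self_eq_norm_sq, real_inner_comm q p]
    ring
  rw [h4]
  rw [h2] at h1
  have h5 : 2 * ⟪p, q⟫ = ‖p‖ ^ 2 + ‖q‖ ^ 2 - ‖p - q‖ ^ 2 := by rw [h3]; ring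
  linear_combination (-1 : ℝ) * h1 - (‖p‖ * ‖q‖) * h5

theorem near {P p q : E} {ε : ℝ} (hP : ‖P‖ ≤ 1) (hp : ‖p‖ ≤ 1) (hq : ‖q‖ ≤ 1)
    (hε : ε ≤ 1) (h1 : ‖p - P‖ ≤ ε) (h2 : ‖q - P‖ ≤ ε)
    (h : ‖‖p‖ • p - ‖q‖ • q‖ = ‖p - q‖) :
    |(1 - ‖P‖ ^ 2) * ‖p - q‖ ^ 2 - 3 * ⟪P, p - q⟫ ^ 2| ≤ 9 * ε * ‖p - q‖ ^ 2 := by
  have hε0 : 0 ≤ ε := (norm_nonneg _).trans h1
  have e := pair h
  set v := p - q with hv
  have hd0 : 0 ≤ ‖v‖ := norm_nonneg _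
  have hd : ‖v‖ ≤ 2 * ε := by
    have : v = (p - P) - (q - P) := by rw [hv]; abel
    rw [this]
    linarith [norm_sub_le (p - P) (q - P)]
  -- first difference
  have k1 : |‖p‖ * ‖q‖ - ‖P‖ ^ 2| ≤ 2 * ε := by
    have a1 : |‖p‖ - ‖P‖| ≤ ε := (abs_norm_sub_norm_le _ _).trans h1
    have a2 : |‖q‖ - ‖P‖| ≤ ε := (abs_norm_sub_norm_le _ _).trans h2
    have a3 : ‖p‖ * ‖q‖ - ‖P‖ ^ 2 = (‖p‖ - ‖P‖) * ‖q‖ + ‖P‖ * (‖q‖ - ‖P‖) := by ring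
    rw [a3]
    refine (abs_add_le _ _).trans ?_
    rw [abs_mul, abs_mul, abs_norm, abs_norm]
    have a4 : |‖p‖ - ‖P‖| * ‖q‖ ≤ ε * 1 :=
      mul_le_mul a1 hq (norm_nonneg _) hε0
    have a5 : ‖P‖ * |‖q‖ - ‖P‖| ≤ 1 * ε :=
      mul_le_mul hP a2 (abs_nonneg _) (by norm_num)
    linarith
  -- second difference
  have k2 : |⟪p + q, v⟫ ^ 2 - 4 * ⟪P, v⟫ ^ 2| ≤ 8 * ε * ‖v‖ ^ 2 := by
    have b1 : ⟪p + q, v⟫ ^ 2 - 4 * ⟪P, v⟫ ^ 2 = ⟪(p - P) + (q - P), v⟫ * ⟪p + q + (P + P), v⟫ := by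
      simp only [inner_add_left, inner_sub_left]
      ring
    rw [b1, abs_mul]
    have b2 : |⟪(p - P) + (q - P), v⟫| ≤ 2 * ε * ‖v‖ := by
      refine (abs_real_inner_le_norm _ _).trans (mul_le_mul_of_nonneg_right ?_ hd0)
      linarith [norm_add_le (p - P) (q - P)]
    have b3 : |⟪p + q + (P + P), v⟫| ≤ 4 * ‖v‖ := by
      refine (abs_real_inner_le_norm _ _).trans (mul_le_mul_of_nonneg_right ?_ hd0)
      linarith [norm_add_le (p + q) (P + P), norm_add_le p q, norm_add_le P P]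
    calc _ ≤ (2 * ε * ‖v‖) * (4 * ‖v‖) := mul_le_mul b2 b3 (abs_nonneg _) (by positivity)
      _ = _ := by ring
  have k3 : (‖p‖ - ‖q‖) ^ 4 ≤ 4 * ε * ‖v‖ ^ 2 := by
    have c1 : (‖p‖ - ‖q‖) ^ 2 ≤ ‖v‖ ^ 2 := by
      rw [sq_le_sq, abs_norm]
      exact abs_norm_sub_norm_le _ _
    have c2 : (‖p‖ - ‖q‖) ^ 4 ≤ ‖v‖ ^ 2 * ‖v‖ ^ 2 := by
      calc (‖p‖ - ‖q‖) ^ 4 = (‖p‖ - ‖q‖) ^ 2 * (‖p‖ - ‖q‖) ^ 2 := by ring
        _ ≤ _ := mul_le_mul c1 c1 (sq_nonneg _) (sq_nonneg _)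
    have c3 : ‖v‖ ^ 2 ≤ 4 * ε := by nlinarith
    exact c2.trans (mul_le_mul_of_nonneg_right c3 (sq_nonneg _))
  have k4 : 0 ≤ (‖p‖ - ‖q‖) ^ 4 := by positivity
  have k5 : |(‖p‖ * ‖q‖ - ‖P‖ ^ 2) * ‖v‖ ^ 2| ≤ 2 * ε * ‖v‖ ^ 2 := by
    rw [abs_mul, abs_of_nonneg (sq_nonneg ‖v‖)]
    exact mul_le_mul_of_nonneg_right k1 (sq_nonneg _)
  have e2 : (1 - ‖P‖ ^ 2) * ‖v‖ ^ 2 - 3 * ⟪P, v⟫ ^ 2 = (‖p‖ * ‖q‖ - ‖P‖ ^ 2) * ‖v‖ ^ 2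
      + 3 / 4 * (⟪p + q, v⟫ ^ 2 - 4 * ⟪P, v⟫ ^ 2) + 1 / 4 * (‖p‖ - ‖q‖) ^ 4 := by
    linear_combination e
  rw [e2, abs_le]
  have l1 := abs_le.1 k2
  have l2 := abs_le.1 k5
  constructor <;> linarith [l1.1, l1.2, l2.1, l2.2]

/-- a fat small triangle is not congruent to its image -/
theorem fat {p q r : E} {ε κ : ℝ} (hp : ‖p‖ ≤ 1) (hq : ‖q‖ ≤ 1) (hr : ‖r‖ ≤ 1)
    (hκ : 0 < κ) (hε : 900 * ε ≤ κ) (hε1 : ε ≤ 1)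
    (hqp : q ≠ p) (hrp : r ≠ p) (h1 : ‖q - p‖ ≤ ε) (h2 : ‖r - p‖ ≤ ε)
    (k1 : κ * (‖q - p‖ ^ 2) ^ 2 ≤ ‖q - p‖ ^ 2 * ‖r - p‖ ^ 2 - ⟪q - p, r - p⟫ ^ 2)
    (k2 : κ * (‖r - p‖ ^ 2) ^ 2 ≤ ‖q - p‖ ^ 2 * ‖r - p‖ ^ 2 - ⟪q - p, r - p⟫ ^ 2)
    (c1 : ‖‖q‖ • q - ‖p‖ • p‖ = ‖q - p‖) (c2 : ‖‖r‖ • r - ‖p‖ • p‖ = ‖r - p‖)
    (c3 : ‖‖q‖ • q - ‖r‖ • r‖ = ‖q - r‖) : False := by
  have hε0 : 0 ≤ ε := (norm_nonneg _).trans h1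
  have z : ‖p - p‖ ≤ ε := by simpa using hε0
  have n1 := near hp hq hp hε1 h1 z c1
  have n2 := near hp hr hp hε1 h2 z c2
  have n3 := near hp hq hr hε1 h1 h2 c3
  have e1 : q - r = (q - p) - (r - p) := by abel
  rw [e1, inner_sub_right, norm_sub_sq_real] at n3
  have a0 : 0 < ‖q - p‖ ^ 2 := by
    have : 0 < ‖q - p‖ := norm_pos_iff.2 (sub_ne_zero.2 hqp)
    positivity
  have b0 : 0 < ‖r - p‖ ^ 2 := by
    have : 0 < ‖r - p‖ := norm_pos_iff.2 (sub_ne_zero.2 hrp)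
    positivity
  have e2 : ‖q - p‖ ^ 2 - 2 * ⟪q - p, r - p⟫ + ‖r - p‖ ^ 2
      = ‖q - p‖ ^ 2 + ‖r - p‖ ^ 2 - 2 * ⟪q - p, r - p⟫ := by ring
  rw [e2] at n3
  exact reals (δ := 9 * ε) a0 b0 (by linarith) (by linarith) hκ n1 n2 n3
    (plane p (q - p) (r - p)) k1 k2

end Pool.Agent.L7h58.TR
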